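import Pool.Agent.H44.EHN.Stmts

/-!
# Row PRM of board `ehn`: the primes used
-/

set_option autoImplicit false

open Classical

namespace EHN

namespace PRMaux

/-- the multiplier `t` of a prime `q` -/
theorem exists_t (d l : ℕ) (hl : l.Prime) (hd : 1 ≤ d) (hdl : 2 * d + 1 < l) (q : ℕ)
    (hq : q.Prime) (hql : l < q) : ∃ t : ℕ, t < 2 * l ∧ Odd t ∧ l ∣ 2 * (d * t * q) + 1 := by
  have : Fact l.Prime := ⟨hl⟩
  have hne : ((2 * d * q : ℕ) : ZMod l) ≠ 0 := by
    rw [Ne, ZMod.natCast_eq_zero_iff]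
    intro h
    rcases hl.dvd_mul.1 h with h1 | h1
    · have := Nat.le_of_dvd (by omega) h1
      omega
    · have h2 := (Nat.prime_dvd_prime_iff_eq hl hq).1 h1
      omega
  have hlodd : Odd l := by
    rcases hl.eq_two_or_odd' with h | h
    · omega
    · exact h
  obtain ⟨t0, ht0⟩ : ∃ t0 : ℕ, t0 = (-((2 * d * q : ℕ) : ZMod l)⁻¹).val := ⟨_, rfl⟩
  have ht0l : t0 < l := by
    rw [ht0]
    exact ZMod.val_lt _
  have hcast : (t0 : ZMod l) = -((2 * d * q : ℕ) : ZMod l)⁻¹ := by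
    rw [ht0, ZMod.natCast_val, ZMod.cast_id]
  have key : ∀ t : ℕ, (t : ZMod l) = (t0 : ZMod l) → l ∣ 2 * (d * t * q) + 1 := by
    intro t ht
    rw [← ZMod.natCast_eq_zero_iff]
    have h1 : ((2 * (d * t * q) + 1 : ℕ) : ZMod l) = ((2 * d * q : ℕ) : ZMod l) * t + 1 := by
      push_cast
      ring
    rw [h1, ht, hcast, mul_neg, mul_inv_cancel₀ hne]
    ring
  rcases Nat.even_or_odd t0 with he | ho
  · refine ⟨t0 + l, by omega, he.add_odd hlodd, key _ ?_⟩
    push_cast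
    simp
  · exact ⟨t0, by omega, ho, key _ rfl⟩

theorem ev_log : ∀ᶠ N : ℕ in Filter.atTop, Real.log ((N : ℝ) + 1) ≤ (19 / 100) * N := by
  have h1 := (Real.isLittleO_log_id_atTop).bound (c := 1 / 10) (by norm_num)
  have h2 : Filter.Tendsto (fun N : ℕ => (N : ℝ) + 1) Filter.atTop Filter.atTop :=
    Filter.tendsto_atTop_add_const_right _ _ tendsto_natCast_atTop_atTop
  filter_upwards [h2.eventually h1, Filter.eventually_ge_atTop 2] with N hN hN2
  have hN2' : (2 : ℝ) ≤ N := by exact_mod_cast hN2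
  rw [Real.norm_eq_abs, Real.norm_eq_abs, id, abs_of_pos (by linarith : (0 : ℝ) < (N : ℝ) + 1)] at hN
  have := le_abs_self (Real.log ((N : ℝ) + 1))
  linarith

theorem ev_pow (l : ℕ) : ∀ᶠ N : ℕ in Filter.atTop,
    ((N : ℝ) ^ (3 / 4 : ℝ) + 1 + (l + 1)) ≤ (1 / 4) * N / Real.log N := by
  have h1 := (isLittleO_log_rpow_atTop (r := 1 / 4) (by norm_num)).bound (c := 1 / 8)
    (by norm_num)
  have h2 : Filter.Tendsto (fun N : ℕ => (N : ℝ)) Filter.atTop Filter.atTop :=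
    tendsto_natCast_atTop_atTop
  have h3 : Filter.Tendsto (fun N : ℕ => (N : ℝ) ^ (3 / 4 : ℝ)) Filter.atTop Filter.atTop :=
    (tendsto_rpow_atTop (by norm_num)).comp h2
  filter_upwards [h2.eventually h1, h3.eventually_ge_atTop ((l : ℝ) + 2),
    Filter.eventually_ge_atTop 3] with N hN hN2 hN3
  have hN3' : (3 : ℝ) ≤ N := by exact_mod_cast hN3
  have hN0 : (0 : ℝ) < N := by linarith
  have hlog : 0 < Real.log N := Real.log_pos (by linarith)
  rw [Real.norm_eq_abs, Real.norm_eq_abs, abs_of_pos hlog,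
    abs_of_nonneg (Real.rpow_nonneg hN0.le _)] at hN
  rw [le_div_iff₀ hlog]
  have h5 : (N : ℝ) ^ (3 / 4 : ℝ) * (N : ℝ) ^ (1 / 4 : ℝ) = N := by
    rw [← Real.rpow_add hN0]
    norm_num
  have h6 : 0 ≤ (N : ℝ) ^ (3 / 4 : ℝ) := Real.rpow_nonneg hN0.le _
  calc ((N : ℝ) ^ (3 / 4 : ℝ) + 1 + (l + 1)) * Real.log N
      ≤ (2 * (N : ℝ) ^ (3 / 4 : ℝ)) * (1 / 8 * (N : ℝ) ^ (1 / 4 : ℝ)) := by
        apply mul_le_mul _ hN hlog.le (by positivity)
        linarith
    _ = 1 / 4 * ((N : ℝ) ^ (3 / 4 : ℝ) * (N : ℝ) ^ (1 / 4 : ℝ)) := by ring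
    _ = 1 / 4 * N := by rw [h5]

end PRMaux

open PRMaux in
theorem PRM_thm : PRMStmt := by
  intro d hd
  have hd1 : 1 ≤ d := hd.pos
  obtain ⟨l, hl2, hl⟩ := Nat.exists_infinite_primes (2 * d + 2)
  have hl0 : (0 : ℝ) < l := by exact_mod_cast hl.pos
  refine ⟨2 * l * d, 1 / (8 * l), by positivity, ?_⟩
  filter_upwards [ev_log, ev_pow l, Filter.eventually_ge_atTop 3] with N h1 h2 h3
  have hN3 : (3 : ℝ) ≤ N := by exact_mod_cast h3
  have hlog : 0 < Real.log N := Real.log_pos (by linarith)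
  obtain ⟨τ, hτ⟩ : ∃ τ : ℕ → ℕ, ∀ q, q.Prime → l < q →
      τ q < 2 * l ∧ Odd (τ q) ∧ l ∣ 2 * (d * τ q * q) + 1 := by
    have h4 : ∀ q : ℕ, ∃ t : ℕ, q.Prime → l < q →
        t < 2 * l ∧ Odd t ∧ l ∣ 2 * (d * t * q) + 1 := by
      intro q
      by_cases hq : q.Prime ∧ l < q
      · obtain ⟨t, ht⟩ := exists_t d l hl hd1 (by omega) q hq.1 hq.2
        exact ⟨t, fun _ _ => ht⟩
      · exact ⟨0, fun ha hb => absurd ⟨ha, hb⟩ hq⟩
    choose τ hτ using h4
    exact ⟨τ, hτ⟩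
  set P : Finset ℕ := (Finset.range (N + 1)).filter
    (fun q => q.Prime ∧ (N : ℝ) ^ (3 / 4 : ℝ) ≤ q ∧ l < q) with hP
  have hcard : (Nat.primeCounting N : ℝ) ≤ P.card + ((N : ℝ) ^ (3 / 4 : ℝ) + 1 + (l + 1)) := by
    have e1 : Nat.primeCounting N = ((Finset.range (N + 1)).filter Nat.Prime).card := by
      rw [Nat.primeCounting, Nat.primeCounting', Nat.count_eq_card_filter_range]
    have e2 : (Finset.range (N + 1)).filter Nat.Prime ⊆
        P ∪ (Finset.range ⌈(N : ℝ) ^ (3 / 4 : ℝ)⌉₊ ∪ Finset.range (l + 1)) := by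
      intro q hq
      simp only [Finset.mem_filter, Finset.mem_range] at hq
      simp only [Finset.mem_union, hP, Finset.mem_filter, Finset.mem_range]
      by_cases ha : (N : ℝ) ^ (3 / 4 : ℝ) ≤ q
      · by_cases hb : l < q
        · exact Or.inl ⟨hq.1, hq.2, ha, hb⟩
        · exact Or.inr (Or.inr (by omega))
      · refine Or.inr (Or.inl ?_)
        rw [Nat.lt_ceil]
        exact not_le.1 ha
    have e3 := (Finset.card_le_card e2).trans (Finset.card_union_le _ _)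
    have e4 := Finset.card_union_le (Finset.range ⌈(N : ℝ) ^ (3 / 4 : ℝ)⌉₊)
      (Finset.range (l + 1))
    rw [Finset.card_range, Finset.card_range] at e4
    have e5 : Nat.primeCounting N ≤ P.card + (⌈(N : ℝ) ^ (3 / 4 : ℝ)⌉₊ + (l + 1)) := by
      rw [e1]
      omega
    have e6 : (⌈(N : ℝ) ^ (3 / 4 : ℝ)⌉₊ : ℝ) < (N : ℝ) ^ (3 / 4 : ℝ) + 1 :=
      Nat.ceil_lt_add_one (Real.rpow_nonneg (by linarith) _)
    have e7 : (Nat.primeCounting N : ℝ) ≤
        P.card + ((⌈(N : ℝ) ^ (3 / 4 : ℝ)⌉₊ : ℝ) + (l + 1)) := by exact_mod_cast e5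
    linarith
  have hpi := Chebyshev.pi_ge N
  have hPge : (1 / 4) * (N : ℝ) / Real.log N ≤ P.card := by
    have e1 : (1 / 2) * (N : ℝ) / Real.log N ≤
        ((N : ℝ) * Real.log 2 - Real.log (N + 1)) / Real.log N := by
      apply div_le_div_of_nonneg_right _ hlog.le
      have := Real.log_two_gt_d9
      nlinarith
    have e2 : (1 / 2) * (N : ℝ) / Real.log N =
        (1 / 4) * (N : ℝ) / Real.log N + (1 / 4) * (N : ℝ) / Real.log N := by ring
    linarith
  have hmaps : ∀ q ∈ P, τ q ∈ Finset.range (2 * l) := by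
    intro q hq
    rw [hP, Finset.mem_filter] at hq
    exact Finset.mem_range.2 (hτ q hq.2.1 hq.2.2.2).1
  have hne : (Finset.range (2 * l)).Nonempty := ⟨0, Finset.mem_range.2 (by have := hl.pos; omega)⟩
  obtain ⟨t, ht, hcardt⟩ := Finset.exists_le_card_fiber_of_nsmul_le_card_of_maps_to hmaps hne
    (b := 1 / (8 * (l : ℝ)) * N / Real.log N) (by
      rw [Finset.card_range, nsmul_eq_mul]
      refine le_trans (le_of_eq ?_) hPge
      push_cast
      field_simp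
      norm_num)
  have hpos : 0 < 1 / (8 * (l : ℝ)) * N / Real.log N := by positivity
  have hex : ∃ q ∈ P, τ q = t := by
    by_contra hcon
    push Not at hcon
    have : (P.filter (fun q => τ q = t)) = ∅ := by
      rw [Finset.filter_eq_empty_iff]
      intro q hq
      exact hcon q hq
    rw [this, Finset.card_empty] at hcardt
    push_cast at hcardt
    linarith
  obtain ⟨q0, hq0, hq0t⟩ := hex
  rw [hP, Finset.mem_filter] at hq0
  obtain ⟨ht1, ht2, -⟩ := hτ q0 hq0.2.1 hq0.2.2.2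
  rw [hq0t] at ht1 ht2
  refine ⟨d * t, P.filter (fun q => τ q = t), hd.mul ht2, Dvd.intro _ rfl, ?_, ?_, hcardt⟩
  · rw [mul_comm (2 * l) d]
    exact Nat.mul_le_mul_left d ht1.le
  · intro q hq
    rw [Finset.mem_filter, hP, Finset.mem_filter, Finset.mem_range] at hq
    obtain ⟨⟨hqN, hqp, hqx, hql⟩, hqt⟩ := hq
    refine ⟨hqp, hqx, by omega, ?_⟩
    obtain ⟨-, -, h5⟩ := hτ q hqp hql
    rw [hqt] at h5
    intro hprime
    rcases (Nat.dvd_prime hprime).1 h5 with h6 | h6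
    · exact hl.one_lt.ne' h6
    · have h7 : 1 ≤ d * t := Nat.mul_pos hd1 ht2.pos
      have h8 : q ≤ d * t * q := Nat.le_mul_of_pos_left q h7
      omega

end EHN
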